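import Pool.Agent.R151.HQD3
import Pool.Agent.R151.HQ_A0
import Pool.Agent.R151.HQ_A1
import Pool.Agent.R151.HQ_A3
import Pool.Agent.R151.HQ_A4
import Pool.Agent.R151.HQ_B
import Pool.Agent.R151.HQ_C1
import Pool.Agent.R151.HQ_C2
import Pool.Agent.R151.HQ_C3
import Pool.Agent.R151.HQ_C4
import Pool.Agent.R151.HQ_NF
import Pool.Agent.R151.HQ_E
import Pool.Agent.R151.HQ_N

/-!
# Heat flow of nonnegative trivariate quartics and sums of squares (MP_ae0293_ag)

For every nonnegative real polynomial `f` in three variables of degree at most four which is not a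
sum of squares, the heat evolution `∑ t^k / k! Δ^k f` is a sum of squares for all large `t`.
The proof includes Hilbert's theorem on ternary quartics (`hilbert` below).
-/

open MvPolynomial

namespace Pool.Agent.Results.MP_ae0293_ag.HeatSOS

open HQ151

theorem hilbert : HilbertStmt := hilbert_of (key_of (oneZero_of binStmt keyTwoStmt))

theorem stepTwo : StepTwoStmt :=
  stepTwo_of pairStmt hilbert (factor_of normStmt) conicStmt normStmt

/-- the Laplacian of a polynomial in three variables -/
noncomputable def laplacian (p : MvPolynomial (Fin 3) ℝ) : MvPolynomial (Fin 3) ℝ :=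
  ∑ i : Fin 3, pderiv i (pderiv i p)

/-- the heat evolution `∑ t^k / k! Δ^k f` of `f` at time `t`; the terms with `k > deg f`
vanish. -/
noncomputable def heatEvolution (f : MvPolynomial (Fin 3) ℝ) (t : ℝ) :
    MvPolynomial (Fin 3) ℝ :=
  ∑ k ∈ Finset.range (f.totalDegree + 1), C (t ^ k / (k.factorial : ℝ)) * laplacian^[k] f

/-- finite sum of squares of polynomials -/
def IsSOS (f : MvPolynomial (Fin 3) ℝ) : Prop :=
  ∃ (n : ℕ) (g : Fin n → MvPolynomial (Fin 3) ℝ), f = ∑ i, g i ^ 2

/-- **Theorem.** Let `f` be a real polynomial in three variables of degree at most `4`, nonnegative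
on `ℝ³` and not a sum of squares. Then the heat evolution of `f` is a sum of squares of
polynomials for all sufficiently large times. -/
theorem result : ∀ f : MvPolynomial (Fin 3) ℝ, (∀ x : Fin 3 → ℝ, 0 ≤ eval x f) → ¬ IsSOS f →
    f.totalDegree ≤ 4 → ∃ T : ℝ, 0 < T ∧ ∀ t : ℝ, T ≤ t → IsSOS (heatEvolution f t) :=
  final_of hilbert stepTwo (deg_of hilbert) nonnegStmt

end Pool.Agent.Results.MP_ae0293_ag.HeatSOS
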